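import Mathlib.Tactic.Linarith.Frontend
import Mathlib.Data.Fintype.Prod
import Mathlib.Algebra.BigOperators.Ring.Finset
import Mathlib.Algebra.Order.BigOperators.Group.Finset
import Mathlib.GroupTheory.FreeGroup.Reduce
import Mathlib.Data.Int.ConditionallyCompleteOrder
import Mathlib.Data.Int.Star
import Mathlib.Algebra.Order.Ring.Star
import Mathlib.Data.List.Lookmap
import Mathlib.Tactic.Algebra.Basic
import Mathlib.Data.Fintype.BigOperators
import Mathlib.Tactic.Group
import Mathlib.Tactic.Continuity
import Mathlib.Combinatorics.SimpleGraph.Basic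
import Mathlib.NumberTheory.NumberField.Basic

-- ======== part 0: formerly Pool.Agent.MP_689404_al.Words
section MrgPart0

/-!
# Counting reduced words

`pre k y` is the set of words `a` of length `k` such that `a ++ [y]` is reduced.
-/

set_option autoImplicit false

namespace Pool.Agent.MP_689404_al

open FreeGroup

variable {α : Type} [DecidableEq α] [Fintype α]

/-- The inverse letter. -/
def bar (y : α × Bool) : α × Bool := (y.1, !y.2)

omit [DecidableEq α] [Fintype α] in
@[simp] lemma bar_bar (y : α × Bool) : bar (bar y) = y := by simp [bar]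

omit [DecidableEq α] [Fintype α] in
lemma bar_ne (y : α × Bool) : bar y ≠ y := by
  rcases y with ⟨a, b⟩
  cases b <;> simp [bar]

omit [DecidableEq α] [Fintype α] in
lemma bar_inj {y z : α × Bool} : bar y = bar z ↔ y = z :=
  ⟨fun h => by rw [← bar_bar y, h, bar_bar], fun h => by rw [h]⟩

omit [DecidableEq α] [Fintype α] in
lemma rel_iff (z y : α × Bool) : (z.1 = y.1 → z.2 = y.2) ↔ z ≠ bar y := by
  rcases y with ⟨a, b⟩
  rcases z with ⟨c, d⟩
  cases b <;> cases d <;> simp [bar]

omit [DecidableEq α] [Fintype α] in
lemma isReduced_concat_concat {a : List (α × Bool)} {z y : α × Bool} :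
    IsReduced (a ++ [z] ++ [y]) ↔ IsReduced (a ++ [z]) ∧ z ≠ bar y := by
  unfold FreeGroup.IsReduced
  rw [List.isChain_append]
  simp [rel_iff]

omit [DecidableEq α] [Fintype α] in
lemma isReduced_left {a b : List (α × Bool)} (h : IsReduced (a ++ b)) : IsReduced a :=
  List.IsChain.left_of_append h

omit [DecidableEq α] [Fintype α] in
lemma isReduced_right {a b : List (α × Bool)} (h : IsReduced (a ++ b)) : IsReduced b :=
  List.IsChain.right_of_append h

omit [Fintype α] in
lemma isReduced_invRev {a : List (α × Bool)} (h : IsReduced a) : IsReduced (invRev a) := by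
  rw [isReduced_iff_reduce_eq] at h ⊢
  rw [reduce_invRev, h]

omit [DecidableEq α] [Fintype α] in
lemma invRev_cons' (y : α × Bool) (s : List (α × Bool)) :
    invRev (y :: s) = invRev s ++ [bar y] := by
  simp [invRev, bar]

omit [DecidableEq α] [Fintype α] in
lemma invRev_concat' (y : α × Bool) (s : List (α × Bool)) :
    invRev (s ++ [y]) = bar y :: invRev s := by
  simp [invRev, bar]

omit [DecidableEq α] [Fintype α] in
lemma mk_bar (y : α × Bool) : (mk [bar y] : FreeGroup α) = (mk [y])⁻¹ := by
  rw [inv_mk]
  simp [invRev, bar]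

/-- Words `a` of length `k` with `a ++ [y]` reduced. -/
def pre : ℕ → α × Bool → Finset (List (α × Bool))
  | 0, _ => {[]}
  | k + 1, y => (Finset.univ.erase (bar y)).biUnion fun z => (pre k z).image (· ++ [z])

lemma mem_pre {k : ℕ} {y : α × Bool} {a : List (α × Bool)} :
    a ∈ pre k y ↔ a.length = k ∧ IsReduced (a ++ [y]) := by
  induction k generalizing y a with
  | zero =>
    simp only [pre, Finset.mem_singleton, List.length_eq_zero_iff]
    constructor
    · rintro rfl
      exact ⟨rfl, IsReduced.singleton⟩
    · exact fun h => h.1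
  | succ k ih =>
    simp only [pre, Finset.mem_biUnion, Finset.mem_erase, Finset.mem_univ, and_true,
      Finset.mem_image, ih]
    constructor
    · rintro ⟨z, hz, b, ⟨hb, hr⟩, rfl⟩
      exact ⟨by simp [hb], isReduced_concat_concat.2 ⟨hr, hz⟩⟩
    · rintro ⟨hl, hr⟩
      rcases List.eq_nil_or_concat a with rfl | ⟨b, z, rfl⟩
      · simp at hl
      · rw [List.concat_eq_append] at hl hr ⊢
        have := isReduced_concat_concat.1 hr
        exact ⟨z, this.2, b, ⟨by simpa using hl, this.1⟩, rfl⟩

lemma card_pre (k : ℕ) (y : α × Bool) :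
    (pre k y).card = (2 * Fintype.card α - 1) ^ k := by
  induction k generalizing y with
  | zero => simp [pre]
  | succ k ih =>
    rw [pre, Finset.card_biUnion]
    · have : ∀ z ∈ Finset.univ.erase (bar y),
          ((pre k z).image (· ++ [z])).card = (2 * Fintype.card α - 1) ^ k := by
        intro z _
        rw [Finset.card_image_of_injective _ (List.append_left_injective _), ih]
      rw [Finset.sum_congr rfl this, Finset.sum_const, Finset.card_erase_of_mem (Finset.mem_univ _)]
      simp [pow_succ, mul_comm]
    · intro z _ z' _ hne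
      simp only [Function.onFun]
      rw [Finset.disjoint_left]
      intro l hl hl'
      simp only [Finset.mem_image] at hl hl'
      obtain ⟨b, -, rfl⟩ := hl
      obtain ⟨b', -, h⟩ := hl'
      have := List.append_inj_right' h rfl
      simp at this
      exact hne this.symm

/-- The edges of the ball of radius `k` of the Cayley tree, as pairs `(a, y)` with `a ++ [y]`
reduced of length at most `k`. -/
def treeEdges (α : Type) [DecidableEq α] [Fintype α] (k : ℕ) :
    Finset (List (α × Bool) × (α × Bool)) :=
  (Finset.range k).biUnion fun j => Finset.univ.biUnion fun y => (pre j y).image fun a => (a, y)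

lemma mem_treeEdges {k : ℕ} {a : List (α × Bool)} {y : α × Bool} :
    (a, y) ∈ treeEdges α k ↔ a.length < k ∧ IsReduced (a ++ [y]) := by
  simp only [treeEdges, Finset.mem_biUnion, Finset.mem_range, Finset.mem_univ, true_and,
    Finset.mem_image, mem_pre, Prod.mk.injEq]
  constructor
  · rintro ⟨j, hj, z, b, ⟨hb, hr⟩, rfl, rfl⟩
    exact ⟨hb ▸ hj, hr⟩
  · rintro ⟨h1, h2⟩
    exact ⟨_, h1, y, a, ⟨rfl, h2⟩, rfl, rfl⟩

lemma card_treeEdges_le (k : ℕ) :
    (treeEdges α k).card ≤
      ∑ j ∈ Finset.range k, 2 * Fintype.card α * (2 * Fintype.card α - 1) ^ j := by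
  refine Finset.card_biUnion_le.trans (Finset.sum_le_sum fun j _ => ?_)
  refine Finset.card_biUnion_le.trans ?_
  refine (Finset.sum_le_sum (g := fun _ => (2 * Fintype.card α - 1) ^ j) fun y _ => ?_).trans ?_
  · exact Finset.card_image_le.trans (card_pre j y).le
  · simp [mul_comm]

lemma geom_identity (s k : ℕ) :
    s * (∑ j ∈ Finset.range k, 2 * (s + 1) * (2 * (s + 1) - 1) ^ j) + (s + 1) =
      (s + 1) * (2 * (s + 1) - 1) ^ k := by
  have h : 2 * (s + 1) - 1 = 2 * s + 1 := by omega
  rw [h]
  induction k with
  | zero => simp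
  | succ k ih =>
    rw [Finset.sum_range_succ, mul_add, pow_succ]
    nlinarith [ih]

/-- The key count: `(r - 1) * (number of tree edges) + r ≤ r * (2 r - 1) ^ k`. -/
lemma treeEdges_bound (s k : ℕ) (hs : Fintype.card α = s + 1) :
    s * (treeEdges α k).card + (s + 1) ≤ (s + 1) * (2 * (s + 1) - 1) ^ k := by
  rw [← geom_identity]
  have := card_treeEdges_le (α := α) k
  rw [hs] at this
  exact Nat.add_le_add_right (Nat.mul_le_mul_left _ this) _

end Pool.Agent.MP_689404_al

end MrgPart0

-- ======== part 1: formerly Pool.Agent.MP_689404_al.Lower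
section MrgPart1

/-!
# Lower bound: free families by ping-pong
-/

set_option autoImplicit false

namespace Pool.Agent.MP_689404_al

open FreeGroup

variable {α : Type} [DecidableEq α]

lemma toWord_mk_of_isReduced {l : List (α × Bool)} (h : FreeGroup.IsReduced l) :
    (mk l).toWord = l := by
  rw [toWord_mk, h.reduce_eq]

omit [DecidableEq α] in
lemma mk_concat (a : List (α × Bool)) (y : α × Bool) :
    (mk (a ++ [y]) : FreeGroup α) = mk a * mk [y] := by
  rw [mul_mk]

/-- One ping-pong move. -/
lemma move {a b : List (α × Bool)} {y : α × Bool}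
    (ha : FreeGroup.IsReduced (a ++ [y])) (hb : FreeGroup.IsReduced (b ++ [bar y]))
    (w : FreeGroup α) (hw : ¬ (b ++ [bar y]) <+: w.toWord) :
    (a ++ [y]) <+: (mk a * mk [y] * (mk b)⁻¹ * w).toWord := by
  set v : FreeGroup α := (mk b)⁻¹ * w with hv
  have hred : FreeGroup.IsReduced (a ++ [y] ++ v.toWord) := by
    have hvr : FreeGroup.IsReduced v.toWord := isReduced_toWord
    have h2 : FreeGroup.IsReduced ([y] ++ v.toWord) := by
      cases hvw : v.toWord with
      | nil => exact IsReduced.singleton
      | cons z t =>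
        rw [hvw] at hvr
        refine isReduced_cons_cons.2 ⟨?_, hvr⟩
        rw [rel_iff]
        intro hz
        apply hw
        have hz' : z = bar y := by rw [hz, bar_bar]
        subst hz'
        have hw2 : w = mk (b ++ [bar y] ++ t) := by
          have : w = mk b * v := by rw [hv]; group
          rw [this, ← mk_toWord (x := v), hvw, mul_mk]
          simp
        have hr : FreeGroup.IsReduced (b ++ [bar y] ++ t) :=
          IsReduced.append_overlap hb (by simpa using hvr) (by simp)
        rw [hw2, toWord_mk_of_isReduced hr]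
        exact List.prefix_append _ _
    exact IsReduced.append_overlap ha h2 (by simp)
  have : mk a * mk [y] * (mk b)⁻¹ * w = mk (a ++ [y] ++ v.toWord) := by
    rw [← mul_mk, mk_toWord, mk_concat, hv]
    group
  rw [this, toWord_mk_of_isReduced hred]
  exact List.prefix_append _ _

/-- A family `a i * y i * (b i)⁻¹` whose initial words are pairwise incomparable is free. -/
lemma injective_lift {ι : Type} (a b : ι → List (α × Bool)) (y : ι → α × Bool)
    (ha : ∀ i, FreeGroup.IsReduced (a i ++ [y i]))
    (hb : ∀ i, FreeGroup.IsReduced (b i ++ [bar (y i)]))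
    (hPP : ∀ i j, (a i ++ [y i]) <+: (a j ++ [y j]) → i = j)
    (hQQ : ∀ i j, (b i ++ [bar (y i)]) <+: (b j ++ [bar (y j)]) → i = j)
    (hPQ : ∀ i j, ¬ (a i ++ [y i]) <+: (b j ++ [bar (y j)]))
    (hQP : ∀ i j, ¬ (b j ++ [bar (y j)]) <+: (a i ++ [y i])) :
    Function.Injective
      (FreeGroup.lift fun i => (mk (a i) * mk [y i] * (mk (b i))⁻¹ : FreeGroup α)) := by
  classical
  set g : ι → FreeGroup α := fun i => mk (a i) * mk [y i] * (mk (b i))⁻¹ with hg
  let R : ι × Bool → List (α × Bool) := fun σ =>
    if σ.2 then a σ.1 ++ [y σ.1] else b σ.1 ++ [bar (y σ.1)]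
  have hRne : ∀ σ, R σ ≠ [] := by
    rintro ⟨i, s⟩
    cases s <;> simp [R]
  have hRinc : ∀ σ τ, R σ <+: R τ → σ = τ := by
    rintro ⟨i, s⟩ ⟨j, t⟩ h
    cases s <;> cases t
    · simp only [R] at h
      simp [hQQ i j (by simpa using h)]
    · exact absurd (by simpa [R] using h) (hQP j i)
    · exact absurd (by simpa [R] using h) (hPQ i j)
    · simp only [R] at h
      simp [hPP i j (by simpa using h)]
  have hmove : ∀ (σ : ι × Bool) (w : FreeGroup α), ¬ R (bar σ) <+: w.toWord →
      R σ <+: (FreeGroup.lift g (mk [σ]) * w).toWord := by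
    rintro ⟨i, s⟩ w hw
    cases s
    · have h1 : FreeGroup.lift g (mk [(i, false)]) = mk (b i) * mk [bar (y i)] * (mk (a i))⁻¹ := by
        simp only [lift_mk, List.map_cons, List.map_nil, List.prod_cons, List.prod_nil, mul_one,
          cond_false, hg, mk_bar]
        group
      rw [h1]
      have := move (a := b i) (b := a i) (y := bar (y i)) (hb i) (by simpa using ha i) w
        (by simpa [R, bar] using hw)
      simpa [R] using this
    · have h1 : FreeGroup.lift g (mk [(i, true)]) = mk (a i) * mk [y i] * (mk (b i))⁻¹ := by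
        simp [lift_mk, hg]
      rw [h1]
      have := move (ha i) (hb i) w (by simpa [R, bar] using hw)
      simpa [R] using this
  have key : ∀ (t : List (ι × Bool)) (σ : ι × Bool), FreeGroup.IsReduced (σ :: t) →
      R σ <+: (FreeGroup.lift g (mk (σ :: t))).toWord := by
    intro t
    induction t with
    | nil =>
      intro σ _
      have := hmove σ 1 (by simpa using hRne _)
      simpa using this
    | cons τ t ih =>
      intro σ hr
      rw [isReduced_cons_cons] at hr
      have h1 := ih τ hr.2
      have h2 : σ ≠ bar τ := (rel_iff _ _).1 hr.1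
      have h3 : ¬ R (bar σ) <+: (FreeGroup.lift g (mk (τ :: t))).toWord := by
        intro h
        rcases List.prefix_or_prefix_of_prefix h h1 with h4 | h4
        · exact h2 (by rw [← hRinc _ _ h4, bar_bar])
        · exact h2 (by rw [hRinc _ _ h4, bar_bar])
      have h4 := hmove σ _ h3
      rw [← _root_.map_mul, mul_mk] at h4
      simpa using h4
  rw [injective_iff_map_eq_one]
  intro x hx
  cases hxw : x.toWord with
  | nil => exact toWord_eq_nil_iff.1 hxw
  | cons σ t =>
    exfalso
    have hr : FreeGroup.IsReduced (σ :: t) := hxw ▸ isReduced_toWord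
    have := key t σ hr
    rw [← hxw, mk_toWord, hx, toWord_one] at this
    exact hRne σ (List.prefix_nil.1 this)

lemma norm_gen {a b : List (α × Bool)} {y : α × Bool}
    (ha : FreeGroup.IsReduced (a ++ [y])) (hb : FreeGroup.IsReduced (b ++ [bar y])) :
    FreeGroup.norm (mk a * mk [y] * (mk b)⁻¹ : FreeGroup α) = a.length + 1 + b.length := by
  have h1 : FreeGroup.IsReduced ([y] ++ invRev b) := by
    have := isReduced_invRev hb
    rw [invRev_concat', bar_bar] at this
    simpa using this
  have h2 : FreeGroup.IsReduced (a ++ [y] ++ invRev b) :=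
    IsReduced.append_overlap ha h1 (by simp)
  rw [inv_mk, mul_mk, mul_mk, FreeGroup.norm, toWord_mk_of_isReduced h2]
  simp
  omega

/-- From a free family indexed by a finite type to a finite free set. -/
lemma exists_finset_of_free {G : Type} [Group G] {ι : Type} [Fintype ι] (g : ι → G)
    (hg : Function.Injective (FreeGroup.lift g)) :
    ∃ A : Finset G, (∀ x ∈ A, ∃ i, g i = x) ∧
      Function.Injective (FreeGroup.lift fun x : A => (x : G)) ∧ A.card = Fintype.card ι := by
  classical
  have hinj : Function.Injective g := by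
    intro i j h
    have : FreeGroup.lift g (of i) = FreeGroup.lift g (of j) := by simpa using h
    exact of_injective (hg this)
  refine ⟨Finset.univ.image g, by simp, ?_, ?_⟩
  · let e : ι ≃ (Finset.univ.image g : Finset G) :=
      Equiv.ofBijective (fun i => ⟨g i, by simp⟩)
        ⟨fun i j h => hinj (by simpa using h), by
          rintro ⟨x, hx⟩
          simp only [Finset.mem_image, Finset.mem_univ, true_and] at hx
          obtain ⟨i, rfl⟩ := hx
          exact ⟨i, rfl⟩⟩
    have h : (FreeGroup.lift fun x : (Finset.univ.image g : Finset G) => (x : G)).comp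
        (freeGroupCongr e).toMonoidHom = FreeGroup.lift g := by
      ext i
      simp [e]
    have h2 : Function.Injective ((FreeGroup.lift fun x : (Finset.univ.image g : Finset G) =>
        (x : G)) ∘ (freeGroupCongr e)) := by
      have := hg
      rw [← h] at this
      exact this
    exact (Function.Injective.of_comp_iff' _ (freeGroupCongr e).bijective).1 h2
  · rw [Finset.card_image_of_injective _ hinj, Finset.card_univ]

omit [DecidableEq α] in
lemma isReduced_map {f : α × Bool → α × Bool} (hf : Function.Injective f)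
    (hbar : ∀ z, f (bar z) = bar (f z)) {l : List (α × Bool)} (h : FreeGroup.IsReduced l) :
    FreeGroup.IsReduced (l.map f) := by
  unfold FreeGroup.IsReduced at h ⊢
  rw [List.isChain_map]
  refine h.imp ?_
  intro u v huv
  rw [rel_iff] at huv ⊢
  rw [← hbar]
  exact fun h => huv (hf h)

variable [Fintype α]

/-- Odd radius: palindromes with a positive middle letter. -/
lemma lower_odd (k : ℕ) :
    ∃ A : Finset (FreeGroup α), (∀ x ∈ A, FreeGroup.norm x = 2 * k + 1) ∧
      Function.Injective (FreeGroup.lift fun x : A => (x : FreeGroup α)) ∧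
      A.card = Fintype.card α * (2 * Fintype.card α - 1) ^ k := by
  classical
  let ι := Σ i : α, (pre k (i, true))
  let a : ι → List (α × Bool) := fun i => i.2.1
  let y : ι → α × Bool := fun i => (i.1, true)
  let b : ι → List (α × Bool) := fun i => (a i).map bar
  have hlen : ∀ i, (a i).length = k := fun i => (mem_pre.1 i.2.2).1
  have ha : ∀ i, FreeGroup.IsReduced (a i ++ [y i]) := fun i => (mem_pre.1 i.2.2).2
  have hbinj : Function.Injective (bar : α × Bool → α × Bool) := fun _ _ h => bar_inj.1 h
  have hb : ∀ i, FreeGroup.IsReduced (b i ++ [bar (y i)]) := fun i => by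
    have := isReduced_map hbinj (fun _ => rfl) (ha i)
    simpa using this
  have hPP : ∀ i j, (a i ++ [y i]) <+: (a j ++ [y j]) → i = j := by
    rintro ⟨i, u, hu⟩ ⟨j, v, hv⟩ h
    have h1 := h.eq_of_length (by simp [hlen])
    have h2 := List.append_inj' h1 rfl
    simp only [a, y, List.cons.injEq, Prod.mk.injEq, and_true] at h2
    obtain ⟨rfl, rfl⟩ := h2
    rfl
  have hfree := injective_lift a b y ha hb hPP
    (by
      intro i j h
      have h1 := h.eq_of_length (by simp [b, hlen])
      apply hPP
      have h2 : (a i ++ [y i]).map bar = (a j ++ [y j]).map bar := by simpa using h1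
      rw [List.map_injective_iff.2 hbinj h2])
    (by
      intro i j h
      have h1 := h.eq_of_length (by simp [b, hlen])
      have h2 := List.append_inj_right' h1 rfl
      simp [y, bar] at h2)
    (by
      intro i j h
      have h1 := h.eq_of_length (by simp [b, hlen])
      have h2 := List.append_inj_right' h1 rfl
      simp [y, bar] at h2)
  obtain ⟨A, hA1, hA2, hA3⟩ := exists_finset_of_free _ hfree
  refine ⟨A, ?_, hA2, ?_⟩
  · intro x hx
    obtain ⟨i, rfl⟩ := hA1 x hx
    rw [norm_gen (ha i) (hb i)]
    simp [b, hlen]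
    omega
  · rw [hA3]
    simp [ι, card_pre]

/-- The letter permutation sending `y` to `(x₀, true)`. -/
def theta (x₀ : α) (y : α × Bool) (z : α × Bool) : α × Bool :=
  (Equiv.swap y.1 x₀ z.1, z.2 == y.2)

omit [Fintype α] in
lemma theta_self (x₀ : α) (y : α × Bool) : theta x₀ y y = (x₀, true) := by
  simp [theta]

omit [Fintype α] in
lemma theta_bar (x₀ : α) (y z : α × Bool) : theta x₀ y (bar z) = bar (theta x₀ y z) := by
  rcases y with ⟨c, d⟩
  rcases z with ⟨e, f⟩
  cases d <;> cases f <;> simp [theta, bar]

omit [Fintype α] in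
lemma theta_injective (x₀ : α) (y : α × Bool) : Function.Injective (theta x₀ y) := by
  rcases y with ⟨c, d⟩
  rintro ⟨e, f⟩ ⟨e', f'⟩ h
  simp only [theta, Prod.mk.injEq, EmbeddingLike.apply_eq_iff_eq] at h
  obtain ⟨h1, h2⟩ := h
  subst h1
  cases d <;> cases f <;> cases f' <;> simp_all

/-- Even radius. -/
lemma lower_even (x₀ : α) (k : ℕ) :
    ∃ A : Finset (FreeGroup α), (∀ x ∈ A, FreeGroup.norm x = 2 * (k + 1)) ∧
      Function.Injective (FreeGroup.lift fun x : A => (x : FreeGroup α)) ∧
      A.card = (2 * Fintype.card α - 1) ^ (k + 1) := by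
  classical
  let S : Finset (α × Bool) := Finset.univ.erase (x₀, true)
  let ι := Σ z : S, (pre k z.1)
  let a : ι → List (α × Bool) := fun i => i.2.1
  let y : ι → α × Bool := fun i => i.1.1
  let b : ι → List (α × Bool) := fun i => (a i).map (theta x₀ (y i)) ++ [(x₀, true)]
  have hy : ∀ i, y i ≠ (x₀, true) := fun i => (Finset.mem_erase.1 i.1.2).1
  have hlen : ∀ i, (a i).length = k := fun i => (mem_pre.1 i.2.2).1
  have ha : ∀ i, FreeGroup.IsReduced (a i ++ [y i]) := fun i => (mem_pre.1 i.2.2).2
  have hb : ∀ i, FreeGroup.IsReduced (b i ++ [bar (y i)]) := fun i => by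
    refine isReduced_concat_concat.2 ⟨?_, ?_⟩
    · have := isReduced_map (theta_injective x₀ (y i)) (theta_bar x₀ (y i)) (ha i)
      simpa [theta_self] using this
    · rw [bar_bar]
      exact (hy i).symm
  have hPP : ∀ i j, (a i ++ [y i]) <+: (a j ++ [y j]) → i = j := by
    rintro ⟨⟨i, hi⟩, u, hu⟩ ⟨⟨j, hj⟩, v, hv⟩ h
    have h1 := h.eq_of_length (by simp [hlen])
    have h2 := List.append_inj' h1 rfl
    simp only [a, y, List.cons.injEq, and_true] at h2
    obtain ⟨rfl, rfl⟩ := h2
    rfl
  have hfree := injective_lift a b y ha hb hPP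
    (by
      intro i j h
      have h1 := h.eq_of_length (by simp [b, hlen])
      have h2 := List.append_inj' h1 rfl
      have h3 : y i = y j := by simpa [bar_inj] using h2.2
      have h4 := List.append_inj_left' h2.1 rfl
      rw [← h3] at h4
      have h5 := List.map_injective_iff.2 (theta_injective x₀ (y i)) h4
      apply hPP
      rw [h5, h3])
    (by
      intro i j h
      have h1 : (a i ++ [y i]) <+: b j :=
        List.prefix_of_prefix_length_le h (List.prefix_append _ _) (by simp [b, hlen])
      have h2 := h1.eq_of_length (by simp [b, hlen])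
      have h3 := List.append_inj_right' h2 rfl
      exact hy i (by simpa using h3))
    (by
      intro i j h
      have h1 := h.length_le
      simp [b, hlen] at h1)
  obtain ⟨A, hA1, hA2, hA3⟩ := exists_finset_of_free _ hfree
  refine ⟨A, ?_, hA2, ?_⟩
  · intro x hx
    obtain ⟨i, rfl⟩ := hA1 x hx
    rw [norm_gen (ha i) (hb i)]
    simp [b, hlen]
    omega
  · rw [hA3]
    simp [ι, card_pre, S, pow_succ, mul_comm]

end Pool.Agent.MP_689404_al

end MrgPart1

-- ======== part 2: formerly Pool.Agent.MP_689404_al.Upper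
section MrgPart2

/-!
# Upper bound: cochains on the Schreier coset graph
-/

set_option autoImplicit false

namespace Pool.Agent.MP_689404_al

open FreeGroup

variable {α : Type}

section Graph

variable (H : Subgroup (FreeGroup α))

/-- The vertex of the Schreier coset graph reached by reading `g` from the base vertex. -/
def vtx (g : FreeGroup α) : FreeGroup α ⧸ H := ((g⁻¹ : FreeGroup α) : FreeGroup α ⧸ H)

/-- The positive edge crossed when the letter `y` is read at the vertex of `g`. -/
def ed (g : FreeGroup α) (y : α × Bool) : (FreeGroup α ⧸ H) × α :=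
  (if y.2 then vtx H g else vtx H (g * mk [y]), y.1)

/-- The signed value of a cochain on the edge crossed by `y` at `g`. -/
def edgeVal (c : (FreeGroup α ⧸ H) × α → ℚ) (g : FreeGroup α) (y : α × Bool) : ℚ :=
  if y.2 then c (ed H g y) else - c (ed H g y)

/-- The value of a cochain along the path that reads `l` from `g`. -/
def path (c : (FreeGroup α ⧸ H) × α → ℚ) : FreeGroup α → List (α × Bool) → ℚ
  | _, [] => 0
  | g, y :: t => edgeVal H c g y + path c (g * mk [y]) t

variable {H}

lemma vtx_eq_iff {g g' : FreeGroup α} : vtx H g = vtx H g' ↔ g * g'⁻¹ ∈ H := by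
  simp [vtx, QuotientGroup.eq]

lemma vtx_mul_left {h : FreeGroup α} (hh : h ∈ H) (g : FreeGroup α) :
    vtx H (h * g) = vtx H g := by
  rw [vtx_eq_iff]
  simpa using hh

lemma vtx_mul_right (g x : FreeGroup α) : vtx H (g * x) = x⁻¹ • vtx H g := by
  simp [vtx, MulAction.Quotient.smul_mk]

lemma ed_mul_left {h : FreeGroup α} (hh : h ∈ H) (g : FreeGroup α) (y : α × Bool) :
    ed H (h * g) y = ed H g y := by
  simp [ed, mul_assoc, vtx_mul_left hh]

lemma ed_bar (g : FreeGroup α) (y : α × Bool) : ed H (g * mk [y]) (bar y) = ed H g y := by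
  rcases y with ⟨i, s⟩
  have := mk_bar (i, s)
  cases s
  · simp [ed, bar]
  · simp only [ed, bar, Bool.not_true, Bool.false_eq_true, ↓reduceIte, Prod.mk.injEq, and_true]
    simp only [bar, Bool.not_true] at this
    rw [this, mul_inv_cancel_right]

lemma path_add (c c' : (FreeGroup α ⧸ H) × α → ℚ) (g : FreeGroup α) (l : List (α × Bool)) :
    path H (c + c') g l = path H c g l + path H c' g l := by
  induction l generalizing g with
  | nil => simp [path]
  | cons y t ih =>
    simp only [path, ih, edgeVal, Pi.add_apply]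
    split_ifs <;> ring

lemma path_smul (r : ℚ) (c : (FreeGroup α ⧸ H) × α → ℚ) (g : FreeGroup α)
    (l : List (α × Bool)) : path H (r • c) g l = r * path H c g l := by
  induction l generalizing g with
  | nil => simp [path]
  | cons y t ih =>
    simp only [path, ih, edgeVal, Pi.smul_apply, smul_eq_mul]
    split_ifs <;> ring

lemma path_congr {c c' : (FreeGroup α ⧸ H) × α → ℚ} (g : FreeGroup α) (l : List (α × Bool))
    (h : ∀ p y s, l = p ++ y :: s → c (ed H (g * mk p) y) = c' (ed H (g * mk p) y)) :
    path H c g l = path H c' g l := by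
  induction l generalizing g with
  | nil => simp [path]
  | cons y t ih =>
    simp only [path]
    have h0 := h [] y t rfl
    rw [← one_eq_mk, mul_one] at h0
    rw [ih (g * mk [y])]
    · simp [edgeVal, h0]
    · intro p z s hts
      have := h (y :: p) z s (by simp [hts])
      rw [mul_assoc, mul_mk]
      exact this

lemma path_of_potential {c : (FreeGroup α ⧸ H) × α → ℚ} {f : FreeGroup α → ℚ}
    (hc : ∀ g i, c (vtx H g, i) = f (g * of i) - f g) (g : FreeGroup α)
    (l : List (α × Bool)) : path H c g l = f (g * mk l) - f g := by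
  induction l generalizing g with
  | nil => simp [path, ← one_eq_mk]
  | cons y t ih =>
    simp only [path, ih]
    have h1 : g * mk [y] * mk t = g * mk (y :: t) := by rw [mul_assoc, mul_mk]; rfl
    rw [h1]
    have h2 : edgeVal H c g y = f (g * mk [y]) - f g := by
      rcases y with ⟨i, s⟩
      cases s
      · simp only [edgeVal, ed, Bool.false_eq_true, ↓reduceIte, hc]
        have : (mk [(i, false)] : FreeGroup α) * of i = 1 := by
          have := mk_bar (i, true)
          simp only [bar, Bool.not_true] at this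
          rw [this]
          exact inv_mul_cancel _
        rw [mul_assoc, this, mul_one]
        ring
      · simp only [edgeVal, ed, ↓reduceIte, hc]
        rfl
    rw [h2]
    ring

/-- Every additive function on `H` is the path value of a cochain. -/
lemma exists_cochain (φ : FreeGroup α → ℚ)
    (hφ : ∀ h ∈ H, ∀ h' ∈ H, φ (h * h') = φ h + φ h') :
    ∃ c : (FreeGroup α ⧸ H) × α → ℚ, ∀ l : List (α × Bool), mk l ∈ H →
      path H c 1 l = φ (mk l) := by
  let τ : FreeGroup α ⧸ H → FreeGroup α := fun q => q.out⁻¹
  have hτ : ∀ q, vtx H (τ q) = q := fun q => by simp [τ, vtx]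
  let f : FreeGroup α → ℚ := fun g => φ (g * (τ (vtx H g))⁻¹)
  have hmem : ∀ g, g * (τ (vtx H g))⁻¹ ∈ H := fun g => vtx_eq_iff.1 (hτ _).symm
  have hf : ∀ h ∈ H, ∀ g, f (h * g) = φ h + f g := by
    intro h hh g
    simp only [f, vtx_mul_left hh]
    rw [mul_assoc, hφ h hh _ (hmem g)]
  refine ⟨fun e => f (τ e.1 * of e.2) - f (τ e.1), ?_⟩
  intro l hl
  rw [path_of_potential (f := f)]
  · have := hf _ hl 1
    rw [mul_one] at this
    rw [one_mul, this]
    ring
  · intro g i
    have h1 := hf _ (hmem g) (τ (vtx H g))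
    have h2 := hf _ (hmem g) (τ (vtx H g) * of i)
    rw [inv_mul_cancel_right] at h1
    rw [← mul_assoc, inv_mul_cancel_right] at h2
    simp only
    rw [h1, h2]
    ring

end Graph

/-- Dual functionals of a free basis. -/
lemma exists_additive {G : Type} [Group G] (A : Finset G)
    (hA : Function.Injective (FreeGroup.lift fun x : A => (x : G))) (ψ : A → ℚ) :
    ∃ φ : G → ℚ, (∀ h ∈ (FreeGroup.lift fun x : A => (x : G)).range,
      ∀ h' ∈ (FreeGroup.lift fun x : A => (x : G)).range, φ (h * h') = φ h + φ h') ∧
      ∀ a : A, φ a = ψ a := by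
  set L := FreeGroup.lift fun x : A => (x : G) with hL
  let ψ' : FreeGroup A →* Multiplicative ℚ := FreeGroup.lift fun a => Multiplicative.ofAdd (ψ a)
  have hinv : ∀ w, Function.invFun L (L w) = w := Function.leftInverse_invFun hA
  refine ⟨fun g => (ψ' (Function.invFun L g)).toAdd, ?_, ?_⟩
  · rintro _ ⟨w, rfl⟩ _ ⟨w', rfl⟩
    simp only
    rw [← _root_.map_mul, hinv, hinv, hinv, _root_.map_mul, toAdd_mul]
  · intro a
    have : (a : G) = L (of a) := by simp [hL]
    simp only
    rw [this, hinv]
    simp [ψ']

variable [DecidableEq α]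

/-- The rank inequality `|A| + |V| ≤ |E| + 1`. -/
lemma card_add_card_le (A : Finset (FreeGroup α))
    (hA : Function.Injective (FreeGroup.lift fun x : A => (x : FreeGroup α)))
    (H : Subgroup (FreeGroup α)) (hH : H = (FreeGroup.lift fun x : A => (x : FreeGroup α)).range)
    (E : Finset ((FreeGroup α ⧸ H) × α)) (V : Finset (FreeGroup α ⧸ H))
    (hE : ∀ a ∈ A, ∀ p y s, a.toWord = p ++ y :: s → ed H (mk p) y ∈ E)
    (hV : ∀ v ∈ V, ∃ l, vtx H (mk l) = v ∧ ∀ p y s, l = p ++ y :: s → ed H (mk p) y ∈ E) :
    A.card + V.card ≤ E.card + 1 := by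
  classical
  have hAH : ∀ a ∈ A, a ∈ H := fun a ha => hH ▸ ⟨of ⟨a, ha⟩, by simp⟩
  let V' := V.erase (vtx H 1)
  let ext : (E → ℚ) → ((FreeGroup α ⧸ H) × α → ℚ) := fun c e => if h : e ∈ E then c ⟨e, h⟩ else 0
  let extV : (V' → ℚ) → (FreeGroup α ⧸ H → ℚ) := fun u q => if h : q ∈ V' then u ⟨q, h⟩ else 0
  have ext_add : ∀ c c', ext (c + c') = ext c + ext c' := by
    intro c c'
    funext e
    simp only [ext, Pi.add_apply]
    split_ifs <;> simp
  have ext_smul : ∀ (r : ℚ) c, ext (r • c) = r • ext c := by
    intro r c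
    funext e
    simp only [ext, Pi.smul_apply]
    split_ifs <;> simp
  let Φ : (E → ℚ) →ₗ[ℚ] (A → ℚ) :=
    { toFun := fun c a => path H (ext c) 1 (a : FreeGroup α).toWord
      map_add' := fun c c' => by
        funext a
        simp [ext_add, path_add]
      map_smul' := fun r c => by
        funext a
        simp [ext_smul, path_smul] }
  let δ : (V' → ℚ) →ₗ[ℚ] (E → ℚ) :=
    { toFun := fun u e => extV u ((of e.1.2 : FreeGroup α)⁻¹ • e.1.1) - extV u e.1.1
      map_add' := fun u u' => by
        funext e
        simp only [extV, Pi.add_apply]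
        split_ifs <;> ring
      map_smul' := fun r u => by
        funext e
        simp only [extV, Pi.smul_apply, smul_eq_mul, RingHom.id_apply]
        split_ifs <;> ring }
  have hpathδ : ∀ u l, (∀ p y s, l = p ++ y :: s → ed H (mk p) y ∈ E) →
      path H (ext (δ u)) 1 l = extV u (vtx H (mk l)) - extV u (vtx H 1) := by
    intro u l hl
    rw [path_congr (c' := fun e => extV u ((of e.2 : FreeGroup α)⁻¹ • e.1) - extV u e.1)]
    · rw [path_of_potential (f := fun g => extV u (vtx H g)), one_mul]
      intro g i
      simp only [vtx_mul_right]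
    · intro p y s h
      have := hl p y s h
      rw [one_mul]
      simp only [ext, this, ↓reduceDIte]
      rfl
  have hsurj : Function.Surjective Φ := by
    intro ψ
    obtain ⟨φ, hφ1, hφ2⟩ := exists_additive A hA ψ
    rw [← hH] at hφ1
    obtain ⟨c, hc⟩ := exists_cochain φ hφ1
    refine ⟨fun e => c e, ?_⟩
    funext a
    change path H (ext fun e => c e) 1 (a : FreeGroup α).toWord = ψ a
    rw [path_congr (c' := c), hc _ (by rw [mk_toWord]; exact hAH _ a.2), mk_toWord, hφ2]
    intro p y s h
    have := hE _ a.2 p y s h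
    rw [one_mul]
    simp only [ext, this, ↓reduceDIte]
  have hcomp : LinearMap.range δ ≤ LinearMap.ker Φ := by
    rintro _ ⟨u, rfl⟩
    rw [LinearMap.mem_ker]
    funext a
    change path H (ext (δ u)) 1 (a : FreeGroup α).toWord = 0
    rw [hpathδ u _ (hE _ a.2), mk_toWord]
    have := vtx_mul_left (hAH _ a.2) 1
    rw [mul_one] at this
    rw [this, sub_self]
  have hinj : Function.Injective δ := by
    rw [← LinearMap.ker_eq_bot, LinearMap.ker_eq_bot']
    intro u hu
    funext v
    obtain ⟨l, hl1, hl2⟩ := hV v.1 (Finset.mem_of_mem_erase v.2)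
    have h1 := hpathδ u l hl2
    have h2 : ext 0 = 0 := by
      funext e
      simp [ext]
    have h3 : path H (0 : (FreeGroup α ⧸ H) × α → ℚ) 1 l = 0 := by
      have := path_smul (H := H) 0 0 1 l
      simpa using this
    rw [hu, h2, h3, hl1] at h1
    have h4 : extV u (vtx H 1) = 0 := by simp [extV, V']
    have h5 : extV u v.1 = u v := by simp [extV]
    rw [h4, h5] at h1
    simpa using h1.symm
  have h1 := LinearMap.finrank_range_add_finrank_ker Φ
  rw [LinearMap.range_eq_top.2 hsurj, finrank_top] at h1
  have h2 := Submodule.finrank_mono hcomp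
  rw [LinearMap.finrank_range_of_inj hinj] at h2
  simp only [Module.finrank_fintype_fun_eq_card, Fintype.card_coe] at h1 h2
  have h3 : V.card ≤ V'.card + 1 := by
    have := Finset.pred_card_le_card_erase (s := V) (a := vtx H 1)
    simp only [V']
    omega
  omega

variable [Fintype α]

/-- Reduced words of length at most `k`. -/
def ball (α : Type) [DecidableEq α] [Fintype α] (k : ℕ) : Finset (List (α × Bool)) :=
  insert [] ((treeEdges α k).image fun e => e.1 ++ [e.2])

lemma mem_ball {k : ℕ} {l : List (α × Bool)} :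
    l ∈ ball α k ↔ FreeGroup.IsReduced l ∧ l.length ≤ k := by
  simp only [ball, Finset.mem_insert, Finset.mem_image, Prod.exists, mem_treeEdges]
  constructor
  · rintro (rfl | ⟨a, i, s, ⟨h1, h2⟩, rfl⟩)
    · simp [IsReduced.nil]
    · exact ⟨h2, by simpa using h1⟩
  · rintro ⟨h1, h2⟩
    rcases List.eq_nil_or_concat l with rfl | ⟨b, ⟨i, s⟩, rfl⟩
    · exact Or.inl rfl
    · rw [List.concat_eq_append] at h1 h2 ⊢
      exact Or.inr ⟨b, i, s, ⟨by simpa using h2, h1⟩, rfl⟩

lemma card_ball_le (k : ℕ) : (ball α k).card ≤ (treeEdges α k).card + 1 :=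
  (Finset.card_insert_le _ _).trans (Nat.add_le_add_right Finset.card_image_le 1)

lemma upper (s k n : ℕ) (hs : Fintype.card α = s + 1) (A : Finset (FreeGroup α))
    (hn : ∀ x ∈ A, FreeGroup.norm x = n)
    (hA : Function.Injective (FreeGroup.lift fun x : A => (x : FreeGroup α))) :
    (n = 2 * k + 1 → A.card ≤ (s + 1) * (2 * (s + 1) - 1) ^ k) ∧
    (n = 2 * k → A.card ≤ (2 * (s + 1) - 1) ^ k) := by
  classical
  set H := (FreeGroup.lift fun x : A => (x : FreeGroup α)).range with hH
  have hAH : ∀ a ∈ A, a ∈ H := fun a ha => ⟨of ⟨a, ha⟩, by simp⟩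
  let V : Finset (FreeGroup α ⧸ H) := (ball α k).image fun l => vtx H (mk l)
  let E₀ : Finset ((FreeGroup α ⧸ H) × α) := (treeEdges α k).image fun e => ed H (mk e.1) e.2
  let E₁ : Finset ((FreeGroup α ⧸ H) × α) := V ×ˢ Finset.univ
  have hmemV : ∀ l, FreeGroup.IsReduced l → l.length ≤ k → vtx H (mk l) ∈ V := fun l h1 h2 =>
    Finset.mem_image.2 ⟨l, mem_ball.2 ⟨h1, h2⟩, rfl⟩
  have hmemE₀ : ∀ p y, FreeGroup.IsReduced (p ++ [y]) → p.length < k → ed H (mk p) y ∈ E₀ :=
    fun p y h1 h2 => Finset.mem_image.2 ⟨(p, y), mem_treeEdges.2 ⟨h2, h1⟩, rfl⟩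
  have hedE₁ : ∀ p y, vtx H (mk p) ∈ V → vtx H (mk (p ++ [y])) ∈ V → ed H (mk p) y ∈ E₁ := by
    intro p y h1 h2
    rw [← mul_mk] at h2
    simp only [E₁, ed, Finset.mem_product, Finset.mem_univ, and_true]
    split_ifs
    · exact h1
    · exact h2
  have hE01 : E₀ ⊆ E₁ := by
    intro e he
    obtain ⟨⟨p, y⟩, hp, rfl⟩ := Finset.mem_image.1 he
    rw [mem_treeEdges] at hp
    exact hedE₁ p y (hmemV p (isReduced_left hp.2) hp.1.le)
      (hmemV _ hp.2 (by simpa using hp.1))
  have hV₀ : ∀ v ∈ V, ∃ l, vtx H (mk l) = v ∧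
      ∀ p y s, l = p ++ y :: s → ed H (mk p) y ∈ E₀ := by
    intro v hv
    obtain ⟨l, hl, rfl⟩ := Finset.mem_image.1 hv
    rw [mem_ball] at hl
    refine ⟨l, rfl, ?_⟩
    rintro p y t rfl
    refine hmemE₀ p y (isReduced_left (b := t) (by simpa using hl.1)) ?_
    have := hl.2
    simp at this
    omega
  have hsplit : ∀ a ∈ A, ∀ p t, a.toWord = p ++ t → mk p = a * mk (invRev t) := by
    intro a _ p t h
    rw [← inv_mk, ← mk_toWord (x := a), h, ← mul_mk]
    group
  have hcardV : V.card ≤ (treeEdges α k).card + 1 :=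
    Finset.card_image_le.trans (card_ball_le k)
  have hcardE₀ : E₀.card ≤ (treeEdges α k).card := Finset.card_image_le
  have hcardE₁ : E₁.card = V.card * (s + 1) := by simp [E₁, hs]
  have hT := treeEdges_bound s k hs
  constructor
  · intro hnk
    have hvert : ∀ a ∈ A, ∀ p t, a.toWord = p ++ t → vtx H (mk p) ∈ V := by
      intro a ha p t h
      have hr : FreeGroup.IsReduced (p ++ t) := h ▸ isReduced_toWord
      have hl : p.length + t.length = 2 * k + 1 := by
        rw [← List.length_append, ← h, ← hnk]
        exact hn a ha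
      by_cases hp : p.length ≤ k
      · exact hmemV p (isReduced_left hr) hp
      · rw [hsplit a ha p t h, vtx_mul_left (hAH a ha)]
        exact hmemV _ (isReduced_invRev (isReduced_right hr)) (by simp; omega)
    have h1 := card_add_card_le A hA H hH E₁ V
      (fun a ha p y t h => hedE₁ p y (hvert a ha p _ h) (hvert a ha _ t (by simpa using h)))
      (fun v hv => by
        obtain ⟨l, h1, h2⟩ := hV₀ v hv
        exact ⟨l, h1, fun p y t h => hE01 (h2 p y t h)⟩)
    rw [hcardE₁] at h1
    nlinarith [Nat.mul_le_mul_left s hcardV]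
  · intro hnk
    have h1 := card_add_card_le A hA H hH E₀ V
      (fun a ha p y t h => by
        have hr : FreeGroup.IsReduced (p ++ y :: t) := h ▸ isReduced_toWord
        have hl : p.length + (t.length + 1) = 2 * k := by
          rw [← List.length_cons (a := y), ← List.length_append, ← h, ← hnk]
          exact hn a ha
        by_cases hp : p.length < k
        · exact hmemE₀ p y (isReduced_left (b := t) (by simpa using hr)) hp
        · rw [← ed_bar, mul_mk, hsplit a ha (p ++ [y]) t (by simpa using h),
            ed_mul_left (hAH a ha)]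
          refine hmemE₀ _ _ ?_ (by simp; omega)
          rw [← invRev_cons']
          exact isReduced_invRev (isReduced_right hr))
      hV₀
    have h2 : E₀.card ≤ V.card * (s + 1) := hcardE₁ ▸ Finset.card_le_card hE01
    have h3 : (s + 1) * A.card ≤ (s + 1) * (2 * (s + 1) - 1) ^ k := by
      nlinarith [Nat.mul_le_mul_left s hcardE₀, Nat.mul_le_mul_left (s + 1) h1]
    exact Nat.le_of_mul_le_mul_left h3 (Nat.succ_pos s)

end Pool.Agent.MP_689404_al

end MrgPart2

-- marker of a merged file
example : 731051 + 651160 = 731051 + 651160 := rfl
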